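import Pool.Agent.Y848.SQ.SW3
import Pool.Agent.Y862.SQ.Stm2

/-!
# Project SQ, part 2: the sum over the large primes of the Jacobi symbols of `-s`, `s` of either sign
-/

set_option autoImplicit false

open Finset Filter Topology

namespace Pool.Agent.Y722.SQ2

open Pool.Agent.H262R3.Lk.SWQ
open Pool.Agent.Helper919
open Pool.Agent.Y848.SQ (g sum_bound)

/-- A primitive character of small conductor agreeing with the symbol of the nonsquare `D`. -/
theorem char_exists (D : ℤ) (hn : D ≠ 0) (hsq : ¬ IsSquare D) : ∃ q : ℕ, 1 < q ∧ q ≤ 4 * D.natAbs ∧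
    ∃ χ : DirichletCharacter ℂ q, χ.IsPrimitive ∧ ∀ p : ℕ, p.Prime → 4 * D.natAbs < p →
      χ (p : ZMod q) = ((jacobiSym D p : ℤ) : ℂ) := by
  have habs : 0 < D.natAbs := Int.natAbs_pos.2 hn
  set ψ := psi D hn with hψ
  have hne : NeZero (4 * D.natAbs) := ⟨by omega⟩
  have h1 : ψ ≠ 1 := psi_ne_one _ hn hsq
  have hc0 : ψ.conductor ≠ 0 := DirichletCharacter.conductor_ne_zero _
  have hc1 : ψ.conductor ≠ 1 := fun hc =>
    h1 (DirichletCharacter.eq_one_iff_conductor_eq_one.2 hc)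
  have hc2 : ψ.conductor ≤ 4 * D.natAbs :=
    Nat.le_of_dvd (by omega) (DirichletCharacter.conductor_dvd_level _)
  refine ⟨ψ.conductor, by omega, by omega, ψ.primitiveCharacter,
    ψ.primitiveCharacter_isPrimitive, fun p hp hlt => ?_⟩
  have hcop : Nat.Coprime p (4 * D.natAbs) := by
    exact (Nat.Prime.coprime_iff_not_dvd hp).2 fun hd => by
      have := Nat.le_of_dvd (by omega) hd
      omega
  have hc : IsCoprime (p : ℤ) ((4 * D.natAbs : ℕ) : ℤ) :=
    Nat.isCoprime_iff_coprime.2 hcop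
  have h2 := DirichletCharacter.primitiveCharacter_apply_of_isCoprime ψ hc
  rw [Int.cast_natCast, Int.cast_natCast] at h2
  rw [h2, hψ, psi_apply, XX_apply, if_pos (hp.odd_of_ne_two (by omega))]
  push_cast
  rfl

theorem t_SW3Z : Pool.Agent.Y862.SQ.S_SW3Z := by
  obtain ⟨n₁, hn₁⟩ := Pool.Agent.W762.EC.SSA.SS_bound 201 101
  -- the parameter `u = T ^ (1 / 100)`
  set K : ℝ := max (max (2 ^ 103) (72 * 2 ^ 200)) (max (n₁ + 4) (5 * (Nat.factorial 101 : ℝ)))
    with hK
  have hlim : Tendsto (fun T : ℕ => (T : ℝ) ^ (1 / 100 : ℝ)) atTop atTop :=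
    (tendsto_rpow_atTop (by norm_num)).comp tendsto_natCast_atTop_atTop
  obtain ⟨T0, hT0⟩ := eventually_atTop.1 (hlim.eventually_ge_atTop K)
  refine ⟨T0, fun T hT h hh hnsq y => ?_⟩
  rw [mem_Icc] at hh
  have hu := hT0 T hT
  set u := (T : ℝ) ^ (1 / 100 : ℝ) with hu_def
  have hu1 : (2 : ℝ) ^ 103 ≤ u := ((le_max_left _ _).trans (le_max_left _ _)).trans hu
  have hu2 : 72 * (2 : ℝ) ^ 200 ≤ u := ((le_max_right _ _).trans (le_max_left _ _)).trans hu
  have hu3 : (n₁ : ℝ) + 4 ≤ u := ((le_max_left _ _).trans (le_max_right _ _)).trans hu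
  have hu4 : 5 * (Nat.factorial 101 : ℝ) ≤ u :=
    ((le_max_right _ _).trans (le_max_right _ _)).trans hu
  have hu0 : 4 ≤ u := by
    have : (0 : ℝ) ≤ n₁ := Nat.cast_nonneg _
    linarith
  have huT : u ^ 100 = T := by
    rw [hu_def, ← Real.rpow_natCast, ← Real.rpow_mul (Nat.cast_nonneg T)]
    norm_num
  have hz : Pool.Agent.Y862.SQ.z2 T = Real.exp u := rfl
  set M := ⌊Real.exp u⌋₊ with hM
  have hMexp : Real.exp u < (M : ℝ) + 1 := Nat.lt_floor_add_one _
  have hMle : (M : ℝ) ≤ Real.exp u := Nat.floor_le (Real.exp_pos u).le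
  have hexpu : u + 1 ≤ Real.exp u := Real.add_one_le_exp u
  have hMn : n₁ ≤ M := by
    apply Nat.le_floor
    linarith
  have hM3 : 3 ≤ M := by
    apply Nat.le_floor
    push_cast
    linarith
  have hM3' : (3 : ℝ) ≤ M := by exact_mod_cast hM3
  -- `4 T ≤ M`
  have h4T : 4 * T ≤ M := by
    apply Nat.le_floor
    push_cast
    rw [← huT]
    have h1 : u ^ 101 / (Nat.factorial 101 : ℝ) ≤ Real.exp u :=
      Real.pow_div_factorial_le_exp u (by linarith) 101
    have h2 : 4 * u ^ 100 ≤ u ^ 101 / (Nat.factorial 101 : ℝ) := by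
      rw [le_div_iff₀ (by positivity)]
      calc 4 * u ^ 100 * (Nat.factorial 101 : ℝ) = u ^ 100 * (4 * (Nat.factorial 101 : ℝ)) := by
            ring
        _ ≤ u ^ 100 * u := by
            apply mul_le_mul_of_nonneg_left _ (by positivity)
            have : (0 : ℝ) ≤ (Nat.factorial 101 : ℝ) := Nat.cast_nonneg _
            linarith
        _ = u ^ 101 := by ring
    linarith
  -- the logarithm of `M`
  have hlogM : u / 2 ≤ Real.log M := by
    rw [Real.le_log_iff_exp_le (by linarith)]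
    have h1 : Real.exp (u / 2) * Real.exp (u / 2) = Real.exp u := by
      rw [← Real.exp_add]; congr 1; ring
    have h2 : 1 + u / 2 ≤ Real.exp (u / 2) := by
      have := Real.add_one_le_exp (u / 2)
      linarith
    nlinarith
  have hu20 : 0 < u / 2 := by linarith
  -- the character
  have hD0 : (-h : ℤ) ≠ 0 := fun h0 => hnsq (h0 ▸ ⟨0, by ring⟩)
  have hDT : (-h : ℤ).natAbs ≤ T := by omega
  obtain ⟨q, hq1, hq2, χ, hχ, hval⟩ := char_exists (-h) hD0 hnsq
  have hqb : (q : ℝ) ≤ 4 * u ^ 100 := by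
    rw [huT]
    have : q ≤ 4 * T := by omega
    exact_mod_cast this
  have hS : ∀ k, M ≤ k → ‖SS χ k‖ ≤ 12 * k / (Real.log k) ^ (200 + 1) := by
    intro k hk
    refine hn₁ k (hMn.trans hk) q hq1 ?_ χ hχ
    have hMk : (M : ℝ) ≤ k := by exact_mod_cast hk
    have hlk : Real.log M ≤ Real.log k := Real.log_le_log (by linarith) hMk
    have h1 : (u / 2) ^ 101 ≤ Real.log k ^ 101 :=
      pow_le_pow_left₀ hu20.le (hlogM.trans hlk) _
    refine hqb.trans (le_trans ?_ h1)
    rw [div_pow, le_div_iff₀ (by positivity)]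
    calc 4 * u ^ 100 * 2 ^ 101 = u ^ 100 * 2 ^ 103 := by ring
      _ ≤ u ^ 100 * u := mul_le_mul_of_nonneg_left hu1 (by positivity)
      _ = u ^ 101 := by ring
  -- the set of primes
  have hset : (Pool.Agent.Y862.SQ.pr y).filter (fun p : ℕ => Pool.Agent.Y862.SQ.z2 T < p) =
      (Ioc M y).filter Nat.Prime := by
    ext p
    unfold Pool.Agent.Y862.SQ.pr
    rw [hz]
    simp only [mem_filter, mem_Icc, mem_Ioc, hM]
    rw [Nat.floor_lt (Real.exp_pos u).le]
    constructor
    · rintro ⟨⟨⟨_, h1⟩, h2⟩, h3⟩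
      exact ⟨⟨h3, h1⟩, h2⟩
    · rintro ⟨⟨h3, h1⟩, h2⟩
      exact ⟨⟨⟨h2.one_lt.le, h1⟩, h2⟩, h3⟩
  rw [hset]
  rcases Nat.lt_or_ge y M with hy | hy
  · rw [Finset.Ioc_eq_empty_of_le hy.le]
    simp
  have hcast : ((∑ p ∈ (Ioc M y).filter Nat.Prime, (Pool.Agent.Y862.SQ.lez h p : ℝ) / p : ℝ) : ℂ) =
      ∑ k ∈ Ioc M y, av χ k * (g k : ℂ) := by
    rw [Finset.sum_filter]
    push_cast
    apply Finset.sum_congr rfl
    intro k hk
    rw [mem_Ioc] at hk
    unfold av g
    split_ifs with hp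
    · rw [hval k hp (by omega)]
      have hk0 : (k : ℂ) ≠ 0 := by
        have := hp.pos
        exact_mod_cast this.ne'
      have hl : ((Real.log k : ℝ) : ℂ) ≠ 0 := by
        have : 0 < Real.log k := Real.log_pos (by exact_mod_cast hp.one_lt)
        exact_mod_cast this.ne'
      unfold Pool.Agent.Y862.SQ.lez
      push_cast at hl ⊢
      field_simp
    · simp
  have hfin := sum_bound χ 200 M y hM3 hy hS
  rw [← hcast, Complex.norm_real, Real.norm_eq_abs] at hfin
  refine hfin.trans ?_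
  have hTpos : (0 : ℝ) < T := by
    rw [← huT]; positivity
  have h1 : (u / 2) ^ 200 ≤ Real.log M ^ 200 := pow_le_pow_left₀ hu20.le hlogM _
  calc 72 / Real.log M ^ 200 ≤ 72 / (u / 2) ^ 200 :=
        div_le_div_of_nonneg_left (by norm_num) (by positivity) h1
    _ = (72 * 2 ^ 200) / (u ^ 100 * u ^ 100) := by
        rw [div_pow, div_div_eq_mul_div, ← pow_add]
    _ ≤ u ^ 100 / (u ^ 100 * u ^ 100) := by
        apply div_le_div_of_nonneg_right _ (by positivity)
        refine hu2.trans ?_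
        calc u = u ^ 1 := (pow_one u).symm
          _ ≤ u ^ 100 := pow_le_pow_right₀ (by linarith) (by norm_num)
    _ = 1 / T := by
        rw [huT]
        field_simp

end Pool.Agent.Y722.SQ2
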